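import Mathlib
import Pool.Agent.H539Z.GDMain

set_option autoImplicit false

namespace Pool.Agent.Results.MP_a6ff19_al.ANilpotentFactor

open Pool.Agent.H539Z.GD

universe u v

/-- The product of a graphically discrete group with a finitely generated virtually nilpotent
group is graphically discrete. -/
theorem result {Γ : Type u} {Γ' : Type v} [Group Γ] [Group Γ'] (h : GraphicallyDiscrete Γ)
    (hfg : Group.FG Γ') (hn : Group.IsVirtuallyNilpotent Γ') :
    GraphicallyDiscrete (Γ × Γ') :=
  main h hfg hn

end Pool.Agent.Results.MP_a6ff19_al.ANilpotentFactor
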